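import Mathlib
import Pool.Agent.TH53.BL5

set_option autoImplicit false
set_option linter.unusedVariables false

/-!
# Determinants of powers, and products of conjugates which agree up to roots of unity
-/

namespace Pool.Agent.Helper83.FT

open Pool.Agent.W237.RK
open Pool.Agent.TH53.BL
open Pool.Agent.H58P (Qb ht)
open Pool.Agent.H58R (ht_nonneg)
open Pool.Agent.H58B (ht_conj ht_pow)
open scoped Pointwise

/-- the exponents of a matrix of small height for which the determinant vanishes -/
lemma det_pow_zero {k : ℕ} (hk : 2 ≤ k) (x : Fin k → Fin k → Qb) (h0 : (Matrix.of x).det = 0)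
    (E : ℕ) (hsmall : (E : ℝ) * ∑ q : Fin k × Fin k, ht (x q.1 q.2) <
      Real.log (((k.factorial : ℝ) + 1) / k.factorial)) :
    ∀ e : ℕ, 0 < e → e ≤ E → (∀ p : ℕ, p.Prime → p ∣ e → k.factorial < p) →
      (Matrix.of fun i j => x i j ^ e).det = 0 := by
  have hf : 2 ≤ k.factorial := by
    calc 2 = Nat.factorial 2 := rfl
      _ ≤ k.factorial := Nat.factorial_le hk
  have hS : 0 ≤ ∑ q : Fin k × Fin k, ht (x q.1 q.2) := Finset.sum_nonneg fun q _ => ht_nonneg _
  intro e
  induction e using Nat.strong_induction_on with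
  | _ e ih =>
    intro he hE hp
    rcases Nat.lt_or_ge 1 e with h1 | h1
    · set p := e.minFac with hpdef
      have hpp : p.Prime := Nat.minFac_prime (by omega)
      obtain ⟨e', he'⟩ : p ∣ e := Nat.minFac_dvd e
      have hpk := hp p hpp ⟨e', he'⟩
      have he'0 : 0 < e' := by
        rcases Nat.eq_zero_or_pos e' with h | h
        · rw [h, mul_zero] at he'
          omega
        · exact h
      have hlt : e' < e := by
        rw [he']
        have := hpp.two_le
        nlinarith
      have hprev := ih e' hlt he'0 (hlt.le.trans hE) fun r hr hre =>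
        hp r hr (hre.trans ⟨p, by rw [he', mul_comm]⟩)
      by_contra hne
      have hpow : (Matrix.of fun i j => (x i j ^ e') ^ p).det ≠ 0 := by
        have : (fun i j => (x i j ^ e') ^ p) = fun i j => x i j ^ e := by
          funext i j
          rw [← pow_mul, mul_comm e' p, ← he']
        rw [this]
        exact hne
      have key := det_height hpp (by omega) (fun i j => x i j ^ e') hprev hpow
      have h2 : ∑ q : Fin k × Fin k, ht ((fun i j => x i j ^ e') q.1 q.2) =
          e' * ∑ q : Fin k × Fin k, ht (x q.1 q.2) := by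
        rw [Finset.mul_sum]
        exact Finset.sum_congr rfl fun q _ => ht_pow _ _
      rw [h2, ← mul_assoc] at key
      have h3 : (p : ℝ) * e' = e := by
        have : ((p * e' : ℕ) : ℝ) = e := by rw [← he']
        rw [← this]
        push_cast
        ring
      rw [h3] at key
      have h4 : (e : ℝ) * ∑ q : Fin k × Fin k, ht (x q.1 q.2) ≤
          E * ∑ q : Fin k × Fin k, ht (x q.1 q.2) :=
        mul_le_mul_of_nonneg_right (by exact_mod_cast hE) hS
      have h5 : Real.log (((k.factorial : ℝ) + 1) / k.factorial) ≤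
          Real.log ((p : ℝ) / k.factorial) := by
        have hf0 : (0 : ℝ) < k.factorial := by positivity
        apply Real.log_le_log (by positivity)
        apply div_le_div_of_nonneg_right _ hf0.le
        exact_mod_cast hpk
      linarith
    · have : e = 1 := by omega
      subst this
      simpa using h0

/-- a permutation `π ≠ 1` whose term agrees with the diagonal term up to a root of unity -/
lemma exists_perm {k : ℕ} (x : Fin k → Fin k → Qb) (hx : ∀ i j, x i j ≠ 0)
    (Q : ℕ) (hQ : 0 < Q) (h : ∀ j < k.factorial, (Matrix.of fun a b => x a b ^ (1 + j * Q)).det = 0) :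
    ∃ π : Equiv.Perm (Fin k), π ≠ 1 ∧ Tor ((∏ i, x (π i) i) / ∏ i, x i i) := by
  classical
  by_contra hcon
  push Not at hcon
  set y : Equiv.Perm (Fin k) → Qb := fun π => ∏ i, x (π i) i with hy
  have hy0 : ∀ π, y π ≠ 0 := fun π => Finset.prod_ne_zero_iff.2 fun i _ => hx _ _
  have hy1 : y 1 = ∏ i, x i i := rfl
  let P : Polynomial Qb := ∏ π ∈ Finset.univ.erase (1 : Equiv.Perm (Fin k)),
    (Polynomial.X - Polynomial.C (y π ^ Q))
  have hPdeg : P.natDegree < k.factorial := by
    have h1 : P.natDegree = (Finset.univ.erase (1 : Equiv.Perm (Fin k))).card := by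
      show (∏ π ∈ Finset.univ.erase (1 : Equiv.Perm (Fin k)),
        (Polynomial.X - Polynomial.C (y π ^ Q))).natDegree = _
      rw [Polynomial.natDegree_prod_of_monic _ _ fun π _ => Polynomial.monic_X_sub_C _,
        Finset.sum_congr rfl fun π _ => Polynomial.natDegree_X_sub_C (y π ^ Q),
        Finset.sum_const, smul_eq_mul, mul_one]
    rw [h1, Finset.card_erase_of_mem (Finset.mem_univ _), Finset.card_univ, Fintype.card_perm,
      Fintype.card_fin]
    have := Nat.factorial_pos k
    omega
  have hP1 : P.eval (y 1 ^ Q) ≠ 0 := by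
    rw [Polynomial.eval_prod]
    refine Finset.prod_ne_zero_iff.2 fun π hπ => ?_
    rw [Polynomial.eval_sub, Polynomial.eval_X, Polynomial.eval_C, sub_ne_zero]
    intro heq
    apply hcon π (Finset.ne_of_mem_erase hπ)
    refine ⟨Q, hQ, ?_⟩
    show (y π / y 1) ^ Q = 1
    rw [div_pow, heq, div_self]
    exact heq ▸ pow_ne_zero _ (hy0 1)
  have hP2 : ∀ π, π ≠ 1 → P.eval (y π ^ Q) = 0 := by
    intro π hπ
    rw [Polynomial.eval_prod]
    apply Finset.prod_eq_zero (Finset.mem_erase.2 ⟨hπ, Finset.mem_univ π⟩)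
    rw [Polynomial.eval_sub, Polynomial.eval_X, Polynomial.eval_C, sub_self]
  have hdet : ∀ j < k.factorial, ∑ π : Equiv.Perm (Fin k),
      (((Equiv.Perm.sign π : ℤ) : Qb) * y π) * (y π ^ Q) ^ j = 0 := by
    intro j hj
    rw [← h j hj, Matrix.det_apply']
    refine Finset.sum_congr rfl fun π _ => ?_
    have : ∏ i, (Matrix.of fun a b => x a b ^ (1 + j * Q)) (π i) i = y π ^ (1 + j * Q) := by
      rw [hy, ← Finset.prod_pow]
      rfl
    rw [this, pow_add, pow_one, mul_comm j Q, pow_mul, mul_assoc]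
  have hsum : ∑ π : Equiv.Perm (Fin k), (((Equiv.Perm.sign π : ℤ) : Qb) * y π) *
      P.eval (y π ^ Q) = 0 := by
    have h1 : ∀ π : Equiv.Perm (Fin k), (((Equiv.Perm.sign π : ℤ) : Qb) * y π) *
        P.eval (y π ^ Q) = ∑ j ∈ Finset.range k.factorial, P.coeff j *
          ((((Equiv.Perm.sign π : ℤ) : Qb) * y π) * (y π ^ Q) ^ j) := by
      intro π
      rw [Polynomial.eval_eq_sum_range' hPdeg, Finset.mul_sum]
      refine Finset.sum_congr rfl fun j _ => ?_
      ring
    rw [Finset.sum_congr rfl fun π _ => h1 π, Finset.sum_comm]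
    refine Finset.sum_eq_zero fun j hj => ?_
    rw [← Finset.mul_sum, hdet j (Finset.mem_range.1 hj), mul_zero]
  rw [Finset.sum_eq_single (1 : Equiv.Perm (Fin k))] at hsum
  · rw [Equiv.Perm.sign_one] at hsum
    simp only [Units.val_one, Int.cast_one, one_mul] at hsum
    exact (mul_ne_zero (hy0 1) hP1) hsum
  · intro π _ hπ
    rw [hP2 π hπ, mul_zero]
  · intro h1
    exact absurd (Finset.mem_univ _) h1

/-- the automorphisms over `F` which multiply `y` by a root of unity -/
def HH (F : GF) (y : Qb) (hy : y ≠ 0) : Subgroup (fixG F) where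
  carrier := {σ | Tor (σ.1 y / y)}
  one_mem' := by
    show Tor ((1 : Aut) y / y)
    rw [AlgEquiv.one_apply, div_self hy]
    exact tor_one
  mul_mem' := by
    intro σ τ hσ hτ
    show Tor ((σ.1 * τ.1) y / y)
    have h1 : (σ.1 * τ.1) y / y = σ.1 (τ.1 y / y) * (σ.1 y / y) := by
      rw [AlgEquiv.mul_apply, map_div₀]
      have : σ.1 y ≠ 0 := (map_ne_zero σ.1).mpr hy
      field_simp
    rw [h1]
    exact Tor.mul (Tor.map hτ σ.1) hσ
  inv_mem' := by
    intro σ hσ
    show Tor ((σ.1⁻¹ : Aut) y / y)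
    have h1 : σ.1 ((σ.1⁻¹ : Aut) y / y) = (σ.1 y / y)⁻¹ := by
      rw [map_div₀, apply_inv_self, inv_div]
    rw [← tor_map_iff σ.1, h1]
    exact Tor.inv hσ

lemma mem_HH {F : GF} {y : Qb} {hy : y ≠ 0} {σ : fixG F} : σ ∈ HH F y hy ↔ Tor (σ.1 y / y) :=
  Iff.rfl

lemma inv_mul_mem_HH {F : GF} {y : Qb} {hy : y ≠ 0} {σ τ : fixG F} :
    τ⁻¹ * σ ∈ HH F y hy ↔ Tor (σ.1 y / τ.1 y) := by
  rw [mem_HH, ← tor_map_iff τ.1]
  have : τ.1 ((τ⁻¹ * σ : fixG F).1 y / y) = σ.1 y / τ.1 y := by
    rw [map_div₀]
    congr 1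
    show τ.1 ((τ.1⁻¹ * σ.1 : Aut) y) = _
    rw [AlgEquiv.mul_apply, apply_inv_self]
  rw [this]

/-- choosing automorphisms which are different up to roots of unity on finitely many numbers -/
lemma exists_family {F : GF} {ι : Type} [Fintype ι] (y : ι → Qb) (hy : ∀ i, y i ≠ 0) (N R : ℕ)
    (hR : N * Fintype.card ι ≤ R)
    (hbig : ∀ i, ¬ ((HH F (y i) (hy i)).FiniteIndex ∧ (HH F (y i) (hy i)).index ≤ R)) :
    ∀ m ≤ N, ∃ f : Fin m → fixG F, ∀ a b, a ≠ b → ∀ i, ¬ Tor ((f a).1 (y i) / (f b).1 (y i)) := by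
  classical
  intro m
  induction m with
  | zero => exact fun _ => ⟨Fin.elim0, fun a => a.elim0⟩
  | succ m ih =>
    intro hm
    obtain ⟨f, hf⟩ := ih (by omega)
    have hex : ∃ σ : fixG F, ∀ (a : Fin m) (i : ι), ¬ Tor (σ.1 (y i) / (f a).1 (y i)) := by
      by_contra hcon
      push Not at hcon
      have hcov : ⋃ q ∈ (Finset.univ : Finset (Fin m × ι)),
          (f q.1) • (HH F (y q.2) (hy q.2) : Set (fixG F)) = Set.univ := by
        rw [Set.eq_univ_iff_forall]
        intro σ
        obtain ⟨a, i, hai⟩ := hcon σ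
        rw [Set.mem_iUnion₂]
        refine ⟨(a, i), Finset.mem_univ _, ?_⟩
        rw [mem_leftCoset_iff]
        exact inv_mul_mem_HH.2 hai
      obtain ⟨q, -, hq1, hq2⟩ := Subgroup.exists_index_le_card_of_leftCoset_cover hcov
      refine hbig q.2 ⟨hq1, hq2.trans ?_⟩
      rw [Finset.card_univ, Fintype.card_prod, Fintype.card_fin]
      calc m * Fintype.card ι ≤ N * Fintype.card ι := Nat.mul_le_mul_right _ (by omega)
        _ ≤ R := hR
    obtain ⟨σ, hσ⟩ := hex
    refine ⟨Fin.cons σ f, ?_⟩
    intro a b hab i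
    refine Fin.cases ?_ (fun a' => ?_) a (motive := fun a => a ≠ b →
      ¬ Tor (((Fin.cons σ f : Fin (m + 1) → fixG F) a).1 (y i) /
        ((Fin.cons σ f : Fin (m + 1) → fixG F) b).1 (y i))) hab
    · refine Fin.cases ?_ (fun b' => ?_) b
      · intro h
        exact absurd rfl h
      · intro _
        exact hσ b' i
    · refine Fin.cases ?_ (fun b' => ?_) b
      · intro _
        show ¬ Tor ((f a').1 (y i) / σ.1 (y i))
        intro h
        apply hσ a' i
        have h1 := h.inv
        rwa [inv_div] at h1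
      · intro h
        exact hf a' b' (fun h' => h (by rw [h'])) i

end Pool.Agent.Helper83.FT
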