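import Mathlib
import Pool.Agent.Helper83.FT.Core

set_option autoImplicit false
set_option linter.unusedVariables false

/-!
# The dichotomy for linear relations of small height
-/

namespace Pool.Agent.Helper83.FT

open Pool.Agent.W237.RK
open Pool.Agent.TH53.BL
open Pool.Agent.H58P (Qb ht)
open Pool.Agent.H58R (ht_nonneg)
open Pool.Agent.H58B (ht_conj ht_pow)

/-- the pigeonhole principle for the choice of the permutations -/
lemma pigeon {k : ℕ} (π : (Fin k → Fin k.factorial) → Equiv.Perm (Fin k)) (hπ : ∀ J, π J ≠ 1) :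
    ∃ (J J' : Fin k → Fin k.factorial) (b : Fin k), π J = π J' ∧ π J b ≠ b ∧ J b ≠ J' b ∧
      ∀ c, c ≠ b → J c = J' c := by
  classical
  by_contra hcon
  push Not at hcon
  -- `k = 0` is impossible
  rcases Nat.eq_zero_or_pos k with hk | hk
  · subst hk
    exact hπ Fin.elim0 (Subsingleton.elim _ _)
  have : Nonempty (Fin k) := ⟨⟨0, hk⟩⟩
  have hmoved : ∀ σ : Equiv.Perm (Fin k), σ ≠ 1 → ∃ b, σ b ≠ b := by
    intro σ hσ
    by_contra h
    push Not at h
    exact hσ (Equiv.ext h)
  choose! bb hbb using hmoved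
  have hN : 0 < k.factorial := Nat.factorial_pos k
  let z : Fin k.factorial := ⟨0, hN⟩
  let Φ : (Fin k → Fin k.factorial) → Equiv.Perm (Fin k) × (Fin k → Fin k.factorial) :=
    fun J => (π J, Function.update J (bb (π J)) z)
  let T : Finset (Equiv.Perm (Fin k) × (Fin k → Fin k.factorial)) :=
    (Finset.univ.erase (1 : Equiv.Perm (Fin k))).biUnion fun σ =>
      ({σ} : Finset _) ×ˢ (Fintype.piFinset fun c => if c = bb σ then ({z} : Finset (Fin k.factorial))
        else Finset.univ)
  have hinj : Set.InjOn Φ (Finset.univ : Finset (Fin k → Fin k.factorial)) := by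
    intro J _ J' _ h
    have h1 : π J = π J' := congrArg Prod.fst h
    have h2 : Function.update J (bb (π J)) z = Function.update J' (bb (π J')) z :=
      congrArg Prod.snd h
    rw [← h1] at h2
    have h3 : ∀ c, c ≠ bb (π J) → J c = J' c := by
      intro c hc
      have h4 := congrFun h2 c
      rwa [Function.update_of_ne hc, Function.update_of_ne hc] at h4
    by_contra hne
    by_cases hb : J (bb (π J)) = J' (bb (π J))
    · apply hne
      funext c
      by_cases hc : c = bb (π J)
      · rw [hc, hb]
      · exact h3 c hc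
    · obtain ⟨c, hc, hc'⟩ := hcon J J' (bb (π J)) h1 (hbb _ (hπ J)) hb
      exact hc' (h3 c hc)
  have hmaps : ∀ J ∈ (Finset.univ : Finset (Fin k → Fin k.factorial)), Φ J ∈ T := by
    intro J _
    rw [Finset.mem_biUnion]
    refine ⟨π J, Finset.mem_erase.2 ⟨hπ J, Finset.mem_univ _⟩, ?_⟩
    rw [Finset.mem_product]
    refine ⟨Finset.mem_singleton_self _, ?_⟩
    rw [Fintype.mem_piFinset]
    intro c
    by_cases hc : c = bb (π J)
    · rw [if_pos hc, Finset.mem_singleton]
      show Function.update J (bb (π J)) z c = z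
      rw [hc, Function.update_self]
    · rw [if_neg hc]
      exact Finset.mem_univ _
  have hcard := Finset.card_le_card_of_injOn Φ hmaps hinj
  have hT : T.card ≤ (k.factorial - 1) * k.factorial ^ (k - 1) := by
    refine Finset.card_biUnion_le.trans ?_
    have h1 : ∀ σ ∈ Finset.univ.erase (1 : Equiv.Perm (Fin k)),
        (({σ} : Finset (Equiv.Perm (Fin k))) ×ˢ (Fintype.piFinset fun c => if c = bb σ then
          ({z} : Finset (Fin k.factorial)) else Finset.univ)).card ≤ k.factorial ^ (k - 1) := by
      intro σ hσ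
      rw [Finset.card_product, Finset.card_singleton, one_mul, Fintype.card_piFinset,
        ← Finset.mul_prod_erase Finset.univ _ (Finset.mem_univ (bb σ)), if_pos rfl,
        Finset.card_singleton, one_mul]
      have h2 : ∀ c ∈ Finset.univ.erase (bb σ), (if c = bb σ then
          ({z} : Finset (Fin k.factorial)) else Finset.univ).card = k.factorial := by
        intro c hc
        rw [if_neg (Finset.ne_of_mem_erase hc), Finset.card_univ, Fintype.card_fin]
      rw [Finset.prod_congr rfl h2, Finset.prod_const, Finset.card_erase_of_mem (Finset.mem_univ _),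
        Finset.card_univ, Fintype.card_fin]
    refine (Finset.sum_le_sum h1).trans ?_
    rw [Finset.sum_const, smul_eq_mul, Finset.card_erase_of_mem (Finset.mem_univ _),
      Finset.card_univ, Fintype.card_perm, Fintype.card_fin]
  rw [Finset.card_univ, Fintype.card_fun, Fintype.card_fin, Fintype.card_fin] at hcard
  have h3 : k.factorial ^ k = k.factorial * k.factorial ^ (k - 1) := by
    rw [← pow_succ']
    congr 1
    omega
  have h4 : (k.factorial - 1) * k.factorial ^ (k - 1) < k.factorial * k.factorial ^ (k - 1) :=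
    Nat.mul_lt_mul_of_pos_right (by omega) (pow_pos hN _)
  omega

/-- `log (1 + 1 / k!) / (k! (k!)!)` -/
noncomputable def dl (k : ℕ) : ℝ :=
  Real.log (((k.factorial : ℝ) + 1) / k.factorial) / (k.factorial * (k.factorial).factorial)

lemma dl_pos (k : ℕ) : 0 < dl k := by
  unfold dl
  apply div_pos
  · apply Real.log_pos
    rw [lt_div_iff₀ (by positivity)]
    linarith
  · positivity

/-- **Dichotomy.** Nonzero numbers `x i` which are linearly dependent over `F` have large heights, or
some quotient `x i / x j` has few conjugates over `F` up to roots of unity. -/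
theorem dichotomy {F : GF} {k : ℕ} (hk : 2 ≤ k) (x g c : Fin k → Qb) (hx : ∀ i, x i ≠ 0)
    (hg : ∀ i, g i ≠ 0) (hgF : ∀ i, ∀ σ : fixG F, Tor (σ.1 (g i) / g i))
    (hc : ∀ i, c i ∈ F) (hc0 : ∃ i, c i ≠ 0) (hrel : ∑ i, c i * x i = 0) :
    dl k ≤ k * ∑ i, ht (x i / g i) ∨
    ∃ i j, i ≠ j ∧ ∃ h0 : x i / x j ≠ 0, (HH F (x i / x j) h0).FiniteIndex ∧
      (HH F (x i / x j) h0).index ≤ k.factorial * k ^ 2 := by
  classical
  by_contra hcon
  push Not at hcon
  obtain ⟨hht, hidx⟩ := hcon
  -- the family of the quotients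
  let ι := {q : Fin k × Fin k // q.1 ≠ q.2}
  let y : ι → Qb := fun q => x q.1.1 / x q.1.2
  have hy : ∀ q, y q ≠ 0 := fun q => div_ne_zero (hx _) (hx _)
  have hcardι : k.factorial * Fintype.card ι ≤ k.factorial * k ^ 2 := by
    apply Nat.mul_le_mul_left
    calc Fintype.card ι ≤ Fintype.card (Fin k × Fin k) := Fintype.card_subtype_le _
      _ = k ^ 2 := by rw [Fintype.card_prod, Fintype.card_fin, sq]
  obtain ⟨f, hf⟩ := exists_family (F := F) y hy k.factorial (k.factorial * k ^ 2) hcardι (by
    rintro q ⟨h1, h2⟩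
    exact absurd h2 (not_le.2 (hidx q.1.1 q.1.2 q.2 (hy q) h1))) k.factorial le_rfl
  -- the permutations
  have hperm : ∀ J : Fin k → Fin k.factorial, ∃ π : Equiv.Perm (Fin k), π ≠ 1 ∧
      Tor (∏ b, (f (J b)).1 (x (π b) / x b)) := by
    intro J
    set M : Fin k → Fin k → Qb := fun a b => (f (J b)).1 (x a) / g a with hM
    have hM0 : ∀ a b, M a b ≠ 0 := fun a b =>
      div_ne_zero ((map_ne_zero (f (J b)).1).mpr (hx a)) (hg a)
    have hMht : ∀ a b, ht (M a b) = ht (x a / g a) := by
      intro a b
      have h1 : M a b = ((f (J b)).1 (g a) / g a) * (f (J b)).1 (x a / g a) := by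
        have h2 : (f (J b)).1 (g a) ≠ 0 := (map_ne_zero (f (J b)).1).mpr (hg a)
        have h3 := hg a
        rw [hM, map_div₀]
        field_simp
      rw [h1, ht_tor_mul (hgF a _), ht_conj]
    have hsum : ∑ q : Fin k × Fin k, ht (M q.1 q.2) = k * ∑ i, ht (x i / g i) := by
      rw [Fintype.sum_prod_type, Finset.mul_sum]
      refine Finset.sum_congr rfl fun a _ => ?_
      rw [Finset.sum_congr rfl fun b _ => hMht a b, Finset.sum_const, Finset.card_univ,
        Fintype.card_fin, nsmul_eq_mul]
    have hdet : (Matrix.of M).det = 0 := by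
      rw [← Matrix.exists_vecMul_eq_zero_iff]
      obtain ⟨i, hi⟩ := hc0
      refine ⟨fun a => c a * g a, ?_, ?_⟩
      · intro h
        have := congrFun h i
        exact mul_ne_zero hi (hg i) this
      · funext b
        show ∑ a, (c a * g a) * M a b = 0
        have h1 : ∀ a, (c a * g a) * M a b = (f (J b)).1 (c a * x a) := by
          intro a
          rw [hM, map_mul, (f (J b)).2 (c a) (hc a)]
          have := hg a
          field_simp
        rw [Finset.sum_congr rfl fun a _ => h1 a, ← map_sum, hrel, map_zero]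
    set Q := (k.factorial).factorial with hQ
    have hQ0 : 0 < Q := Nat.factorial_pos _
    have hf0 : 0 < k.factorial := Nat.factorial_pos _
    have hall := det_pow_zero hk M hdet (k.factorial * Q) (by
      rw [hsum]
      have h1 := hht
      unfold dl at h1
      rw [lt_div_iff₀ (by positivity)] at h1
      push_cast
      rw [mul_comm]
      exact h1)
    have hzero : ∀ j < k.factorial, (Matrix.of fun a b => M a b ^ (1 + j * Q)).det = 0 := by
      intro j hj
      apply hall (1 + j * Q) (by omega)
      · have h1 : (j + 1) * Q ≤ k.factorial * Q := Nat.mul_le_mul_right _ (by omega)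
        have h2 : (j + 1) * Q = j * Q + Q := by ring
        omega
      · intro p hp hdvd
        by_contra hle
        push Not at hle
        have h1 : p ∣ Q := hp.dvd_factorial.2 hle
        have h2 : p ∣ 1 := (Nat.dvd_add_left (h1.mul_left j)).1 hdvd
        exact hp.one_lt.ne' (Nat.dvd_one.1 h2)
    obtain ⟨π, hπ1, hπ2⟩ := exists_perm M hM0 Q hQ0 hzero
    refine ⟨π, hπ1, ?_⟩
    have e : (∏ i, M (π i) i) / ∏ i, M i i = ∏ b, (f (J b)).1 (x (π b) / x b) := by
      have h1 : ∏ i, M (π i) i = (∏ i, (f (J i)).1 (x (π i))) / ∏ i, g i := by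
        rw [hM, Finset.prod_div_distrib, Equiv.prod_comp π g]
      have h2 : ∏ i, M i i = (∏ i, (f (J i)).1 (x i)) / ∏ i, g i := by
        rw [hM, Finset.prod_div_distrib]
      have h3 : ∏ i, g i ≠ 0 := Finset.prod_ne_zero_iff.2 fun i _ => hg i
      rw [h1, h2, div_div_div_cancel_right₀ h3, ← Finset.prod_div_distrib]
      refine Finset.prod_congr rfl fun b _ => ?_
      rw [map_div₀]
    rwa [e] at hπ2
  choose π hπ1 hπ2 using hperm
  obtain ⟨J, J', b, h1, h2, h3, h4⟩ := pigeon π hπ1
  -- divide the two relations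
  have h5 : (∏ a, (f (J a)).1 (x (π J a) / x a)) / (∏ a, (f (J' a)).1 (x (π J' a) / x a)) =
      (f (J b)).1 (x (π J b) / x b) / (f (J' b)).1 (x (π J b) / x b) := by
    rw [← h1, ← Finset.mul_prod_erase Finset.univ _ (Finset.mem_univ b),
      ← Finset.mul_prod_erase Finset.univ (fun a => (f (J' a)).1 (x (π J a) / x a))
        (Finset.mem_univ b)]
    have h6 : ∏ a ∈ Finset.univ.erase b, (f (J a)).1 (x (π J a) / x a) =
        ∏ a ∈ Finset.univ.erase b, (f (J' a)).1 (x (π J a) / x a) := by
      refine Finset.prod_congr rfl fun a ha => ?_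
      rw [h4 a (Finset.ne_of_mem_erase ha)]
    rw [h6]
    apply mul_div_mul_right
    refine Finset.prod_ne_zero_iff.2 fun a _ => ?_
    exact (map_ne_zero _).mpr (div_ne_zero (hx _) (hx _))
  have h7 := (hπ2 J).div (hπ2 J')
  rw [h5] at h7
  exact hf (J b) (J' b) h3 ⟨(π J b, b), h2⟩ h7

end Pool.Agent.Helper83.FT
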