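import Mathlib
import Pool.Agent.Helper83.FT.Dich

set_option autoImplicit false
set_option linter.unusedVariables false

/-!
# Numbers with few conjugates up to roots of unity
-/

namespace Pool.Agent.Helper83.FT

open Polynomial
open Pool.Agent.W237.RK
open Pool.Agent.TH53.BL
open Pool.Agent.H58P (Qb ht)

/-- the roots of unity `u` such that `u α` is a conjugate of `α` over `F` -/
def SS (F : GF) (hF : ∀ x : Qb, Tor x → x ∈ F) (α : Qb) (hα : α ≠ 0) : Subgroup Qbˣ where
  carrier := {u | Tor (u : Qb) ∧ ∃ σ : fixG F, σ.1 α = u * α}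
  one_mem' := by
    refine ⟨?_, 1, ?_⟩
    · rw [Units.val_one]
      exact tor_one
    · show (1 : Aut) α = _
      rw [AlgEquiv.one_apply, Units.val_one, one_mul]
  mul_mem' := by
    rintro u v ⟨hu, σ, hσ⟩ ⟨hv, τ, hτ⟩
    refine ⟨?_, σ * τ, ?_⟩
    · rw [Units.val_mul]
      exact hu.mul hv
    · show (σ.1 * τ.1) α = _
      rw [AlgEquiv.mul_apply, hτ, map_mul, σ.2 _ (hF _ hv), hσ, Units.val_mul]
      ring
  inv_mem' := by
    rintro u ⟨hu, σ, hσ⟩
    refine ⟨?_, σ⁻¹, ?_⟩
    · rw [Units.val_inv_eq_inv_val]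
      exact hu.inv
    · show (σ.1⁻¹ : Aut) α = _
      have h1 : α = (u : Qb) * (σ.1⁻¹ : Aut) α := by
        have h2 : (σ.1⁻¹ : Aut) (σ.1 α) = α := inv_apply_self _ _
        rw [hσ, map_mul] at h2
        have h3 : (σ.1⁻¹ : Aut) (u : Qb) = u := (σ⁻¹ : fixG F).2 _ (hF _ hu)
        rw [h3] at h2
        exact h2.symm
      rw [Units.val_inv_eq_inv_val]
      conv_rhs => rw [h1]
      rw [inv_mul_cancel_left₀ (Units.ne_zero u)]

lemma SS_finite (F : GF) (hF : ∀ x : Qb, Tor x → x ∈ F) (α : Qb) (hα : α ≠ 0) :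
    Finite (SS F hF α hα) := by
  have hfin := orb_finite F α
  have := hfin.to_subtype
  let φ : SS F hF α hα → orb F α := fun u => ⟨(u.1 : Qb) * α, by
    obtain ⟨-, σ, hσ⟩ := u.2
    exact ⟨σ.1, σ.2, hσ⟩⟩
  refine Finite.of_injective φ ?_
  intro u v huv
  have h1 : (u.1 : Qb) * α = v.1 * α := congrArg Subtype.val huv
  exact Subtype.ext (Units.ext (mul_right_cancel₀ hα h1))

/-- **block lemma** -/
theorem block (F : GF) (hF : ∀ x : Qb, Tor x → x ∈ F) (α : Qb) (hα : α ≠ 0)
    (hfi : (HH F α hα).FiniteIndex) :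
    ∃ B : ℕ, 0 < B ∧ (∀ i ∈ (minpoly F α).support, B ∣ i) ∧
      (orb F α).ncard ≤ (HH F α hα).index * B ∧ (orb F (α ^ B)).ncard ≤ (HH F α hα).index := by
  classical
  have hS := SS_finite F hF α hα
  set S := SS F hF α hα with hSdef
  set B := Nat.card S with hB
  have hB0 : 0 < B := Nat.card_pos
  have halg : IsIntegral F α := (Pool.Agent.H58P.qb_isIntegral α).tower_top
  refine ⟨B, hB0, ?_, ?_, ?_⟩
  · -- the exponents
    obtain ⟨g, hg⟩ := IsCyclic.exists_ofOrder_eq_natCard (α := S)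
    obtain ⟨htor, σ, hσ⟩ := g.2
    set ζ : Qb := (g.1 : Qb) with hζ
    have hζ0 : ζ ≠ 0 := Units.ne_zero _
    let z : F := ⟨ζ, hF _ htor⟩
    have hz0 : z ≠ 0 := by
      intro h
      exact hζ0 (congrArg Subtype.val h)
    set f := minpoly F α with hf
    have hfne : f ≠ 0 := minpoly.ne_zero halg
    set f1 := f.comp (C z * X) with hf1
    have hroot : aeval (ζ * α) f = 0 := by
      rw [← hσ]
      exact (mem_orb_iff F α _).1 ⟨σ.1, σ.2, rfl⟩
    have hroot1 : aeval α f1 = 0 := by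
      rw [hf1, aeval_comp, map_mul, aeval_C, aeval_X]
      exact hroot
    have hdvd : f ∣ f1 := minpoly.dvd F α hroot1
    have hdeg : f1.natDegree = f.natDegree := by
      rw [hf1, natDegree_comp, natDegree_C_mul_X _ hz0, mul_one]
    obtain ⟨q, hq⟩ := hdvd
    have hc : ∀ i, f1.coeff i = f.coeff i * z ^ i := by
      intro i
      rw [hf1, comp_C_mul_X_coeff]
    have hf1ne : f1 ≠ 0 := by
      intro h
      have h1 := hc f.natDegree
      rw [h, coeff_zero, coeff_natDegree] at h1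
      exact (mul_ne_zero (leadingCoeff_ne_zero.2 hfne) (pow_ne_zero _ hz0)) h1.symm
    have hqne : q ≠ 0 := by
      rintro rfl
      exact hf1ne (by rw [hq, mul_zero])
    have hqdeg : q.natDegree = 0 := by
      have h1 := natDegree_mul hfne hqne
      rw [← hq, hdeg] at h1
      omega
    obtain ⟨c, hc'⟩ := natDegree_eq_zero.1 hqdeg
    have h0 : f.coeff 0 ≠ 0 := minpoly.coeff_zero_ne_zero halg hα
    have hc1 : c = 1 := by
      have h1 := hc 0
      rw [hq, ← hc', coeff_mul_C, pow_zero, mul_one] at h1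
      exact mul_left_cancel₀ h0 (by rw [h1, mul_one])
    intro i hi
    have h1 := hc i
    rw [hq, ← hc', hc1, map_one, mul_one] at h1
    have h2 : z ^ i = 1 := by
      have h3 := mem_support_iff.1 hi
      exact mul_left_cancel₀ h3 (by rw [← h1, mul_one])
    rw [hB, ← hg, orderOf_dvd_iff_pow_eq_one]
    apply Subtype.ext
    apply Units.ext
    have h3 := congrArg (fun w : F => (w : Qb)) h2
    simpa using h3
  · -- the number of conjugates
    let φ : (fixG F ⧸ HH F α hα) × S → Qb := fun q => (q.2.1 : Qb) * (q.1.out.1 α)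
    have hsub : orb F α ⊆ Set.range φ := by
      rintro _ ⟨σ, hσ, rfl⟩
      set s : fixG F := ⟨σ, hσ⟩ with hs
      set t : fixG F := (QuotientGroup.mk s : fixG F ⧸ HH F α hα).out with ht'
      have h1 : t⁻¹ * s ∈ HH F α hα := by
        rw [← QuotientGroup.eq, ht', QuotientGroup.out_eq']
      have h2 : Tor ((t⁻¹ * s).1 α / α) := h1
      have hne : (t⁻¹ * s).1 α / α ≠ 0 := h2.ne_zero
      let u : Qbˣ := Units.mk0 _ hne
      have hu : u ∈ S := ⟨h2, t⁻¹ * s, by
        show _ = ((t⁻¹ * s).1 α / α) * α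
        rw [div_mul_cancel₀ _ hα]⟩
      refine ⟨(QuotientGroup.mk s, ⟨u, hu⟩), ?_⟩
      show ((t⁻¹ * s).1 α / α) * (t.1 α) = σ α
      have h3 : t.1 ((t⁻¹ * s).1 α / α) = (t⁻¹ * s).1 α / α := t.2 _ (hF _ h2)
      rw [← h3, map_div₀]
      have h4 : t.1 ((t⁻¹ * s).1 α) = σ α := by
        show t.1 ((t.1⁻¹ * s.1 : Aut) α) = σ α
        rw [AlgEquiv.mul_apply, apply_inv_self]
      rw [h4, div_mul_cancel₀]
      exact (map_ne_zero t.1).mpr hα
    have hfinr : (Set.range φ).Finite := Set.finite_range φ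
    have h1 := Set.ncard_le_ncard hsub hfinr
    have h2 : (Set.range φ).ncard ≤ Nat.card ((fixG F ⧸ HH F α hα) × S) := by
      rw [← Set.image_univ]
      refine (Set.ncard_image_le Set.finite_univ).trans ?_
      rw [Set.ncard_univ]
    rw [Nat.card_prod] at h2
    exact h1.trans h2
  · -- the conjugates of the power
    let φ : (fixG F ⧸ HH F α hα) → Qb := fun q => q.out.1 (α ^ B)
    have hsub : orb F (α ^ B) ⊆ Set.range φ := by
      rintro _ ⟨σ, hσ, rfl⟩
      set s : fixG F := ⟨σ, hσ⟩ with hs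
      set t : fixG F := (QuotientGroup.mk s : fixG F ⧸ HH F α hα).out with ht'
      have h1 : t⁻¹ * s ∈ HH F α hα := by
        rw [← QuotientGroup.eq, ht', QuotientGroup.out_eq']
      have h2 : Tor ((t⁻¹ * s).1 α / α) := h1
      have hne : (t⁻¹ * s).1 α / α ≠ 0 := h2.ne_zero
      let u : Qbˣ := Units.mk0 _ hne
      have hu : u ∈ S := ⟨h2, t⁻¹ * s, by
        show _ = ((t⁻¹ * s).1 α / α) * α
        rw [div_mul_cancel₀ _ hα]⟩
      have hpow : (⟨u, hu⟩ : S) ^ B = 1 := by
        rw [hB]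
        exact pow_card_eq_one'
      have hpow' : ((t⁻¹ * s).1 α / α) ^ B = 1 := by
        have h5 : ((u : Qbˣ) : Qb) ^ B = 1 := by
          have h6 := congrArg (fun w : S => ((w : Qbˣ) : Qb)) hpow
          simpa using h6
        exact h5
      refine ⟨QuotientGroup.mk s, ?_⟩
      show t.1 (α ^ B) = σ (α ^ B)
      have h6 : (t⁻¹ * s).1 (α ^ B) = α ^ B := by
        rw [map_pow]
        rw [div_pow, div_eq_one_iff_eq (pow_ne_zero _ hα)] at hpow'
        exact hpow'
      have h4 : t.1 ((t⁻¹ * s).1 (α ^ B)) = σ (α ^ B) := by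
        show t.1 ((t.1⁻¹ * s.1 : Aut) (α ^ B)) = σ (α ^ B)
        rw [AlgEquiv.mul_apply, apply_inv_self]
      rw [← h4, h6]
    have hfinr : (Set.range φ).Finite := Set.finite_range φ
    have h1 := Set.ncard_le_ncard hsub hfinr
    have h2 : (Set.range φ).ncard ≤ Nat.card (fixG F ⧸ HH F α hα) := by
      rw [← Set.image_univ]
      refine (Set.ncard_image_le Set.finite_univ).trans ?_
      rw [Set.ncard_univ]
    exact h1.trans h2

/-- the group for a quotient of different powers -/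
lemma HH_pow (F : GF) (α : Qb) (hα : α ≠ 0) {m n : ℕ} (hmn : m ≠ n)
    (h0 : α ^ m / α ^ n ≠ 0) : HH F (α ^ m / α ^ n) h0 = HH F α hα := by
  ext σ
  rw [mem_HH, mem_HH]
  have hσ : σ.1 α ≠ 0 := (map_ne_zero σ.1).mpr hα
  have e : σ.1 (α ^ m / α ^ n) / (α ^ m / α ^ n) = (σ.1 α / α) ^ m / (σ.1 α / α) ^ n := by
    rw [map_div₀, map_pow, map_pow, div_pow, div_pow]
    field_simp
  rw [e]
  have ht0 : σ.1 α / α ≠ 0 := div_ne_zero hσ hα
  constructor
  · intro h
    rcases lt_or_gt_of_ne hmn with hlt | hlt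
    · have h1 : (σ.1 α / α) ^ (n - m) = ((σ.1 α / α) ^ m / (σ.1 α / α) ^ n)⁻¹ := by
        rw [inv_div, pow_sub₀ _ ht0 hlt.le, ← div_eq_mul_inv]
      exact Tor.of_pow (Nat.sub_pos_of_lt hlt) (h1 ▸ h.inv)
    · have h1 : (σ.1 α / α) ^ (m - n) = (σ.1 α / α) ^ m / (σ.1 α / α) ^ n := by
        rw [pow_sub₀ _ ht0 hlt.le, ← div_eq_mul_inv]
      exact Tor.of_pow (Nat.sub_pos_of_lt hlt) (h1 ▸ h)
  · intro h
    exact (h.pow m).div (h.pow n)

/-- **few terms.** A zero of a polynomial over `F` with `k` terms and of degree `N` has height at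
least `c_k / N` after division by radicals over `F`, or it has few conjugates over `F` up to roots of
unity -/
theorem few_terms (F : GF) (hF : ∀ x : Qb, Tor x → x ∈ F) (α : Qb) (hα : α ≠ 0) (G : F[X])
    (hG : G ≠ 0) (hGα : aeval α G = 0) :
    (∀ γ : Qb, γ ≠ 0 → (∀ σ : fixG F, Tor (σ.1 γ / γ)) →
      dl G.support.card ≤ (G.support.card : ℝ) ^ 2 * G.natDegree * ht (α / γ)) ∨
    ((HH F α hα).FiniteIndex ∧
      (HH F α hα).index ≤ (G.support.card).factorial * G.support.card ^ 2) := by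
  classical
  set k := G.support.card with hk
  by_cases hidx : ((HH F α hα).FiniteIndex ∧ (HH F α hα).index ≤ k.factorial * k ^ 2)
  · exact Or.inr hidx
  left
  intro γ hγ hγF
  let e : Fin k ≃ G.support := (G.support.equivFin).symm
  have hk2 : 2 ≤ k := by
    by_contra hlt
    have hk1 : k ≤ 1 := by omega
    rcases Nat.lt_or_ge k 1 with h0 | h1
    · have : G.support = ∅ := Finset.card_eq_zero.1 (by omega)
      exact hG (support_eq_empty.1 this)
    · obtain ⟨n, a, ha, hGm⟩ := card_support_eq_one.1 (show G.support.card = 1 by omega)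
      rw [hGm, map_mul, aeval_C, map_pow, aeval_X] at hGα
      have h2 : algebraMap F Qb a ≠ 0 := by
        intro h
        exact ha ((map_eq_zero _).1 h)
      exact (mul_ne_zero h2 (pow_ne_zero _ hα)) hGα
  have hsum : ∑ i : Fin k, ((G.coeff (e i : ℕ) : F) : Qb) * α ^ (e i : ℕ) = 0 := by
    have h1 : ∑ i : Fin k, ((G.coeff (e i : ℕ) : F) : Qb) * α ^ (e i : ℕ) =
        ∑ n : G.support, ((G.coeff (n : ℕ) : F) : Qb) * α ^ (n : ℕ) :=
      Equiv.sum_comp e fun n : G.support => ((G.coeff (n : ℕ) : F) : Qb) * α ^ (n : ℕ)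
    rw [h1, Finset.sum_coe_sort G.support (fun n => ((G.coeff n : F) : Qb) * α ^ n), ← hGα,
      aeval_def, eval₂_eq_sum]
    rfl
  rcases dichotomy (F := F) hk2 (fun i => α ^ (e i : ℕ)) (fun i => γ ^ (e i : ℕ))
    (fun i => ((G.coeff (e i : ℕ) : F) : Qb)) (fun i => pow_ne_zero _ hα)
    (fun i => pow_ne_zero _ hγ) (fun i σ => by
      rw [map_pow, ← div_pow]
      exact (hγF σ).pow _) (fun i => SetLike.coe_mem _)
    ⟨⟨0, by omega⟩, by
      have h1 := mem_support_iff.1 (e ⟨0, by omega⟩).2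
      intro h
      exact h1 (Subtype.ext h)⟩ hsum with h | h
  · refine h.trans ?_
    have h1 : ∀ i : Fin k, ht (α ^ (e i : ℕ) / γ ^ (e i : ℕ)) ≤ G.natDegree * ht (α / γ) := by
      intro i
      rw [← div_pow, Pool.Agent.H58B.ht_pow]
      apply mul_le_mul_of_nonneg_right _ (Pool.Agent.H58R.ht_nonneg _)
      exact_mod_cast le_natDegree_of_mem_supp _ (e i).2
    calc (k : ℝ) * ∑ i : Fin k, ht (α ^ (e i : ℕ) / γ ^ (e i : ℕ))
        ≤ k * ∑ i : Fin k, G.natDegree * ht (α / γ) :=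
          mul_le_mul_of_nonneg_left (Finset.sum_le_sum fun i _ => h1 i) (Nat.cast_nonneg _)
      _ = _ := by
          rw [Finset.sum_const, Finset.card_univ, Fintype.card_fin, nsmul_eq_mul]
          ring
  · exfalso
    obtain ⟨i, j, hij, h0, h1, h2⟩ := h
    have hne : (e i : ℕ) ≠ (e j : ℕ) := by
      intro h
      exact hij (e.injective (Subtype.ext h))
    have h3 := HH_pow F α hα hne h0
    rw [h3] at h1 h2
    exact hidx ⟨h1, h2⟩

end Pool.Agent.Helper83.FT
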